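import Pool.Agent.V1141.UN.Hyper

/-!
# MP_bc9e10_co: the conjecture fails for `k = 3`

The secant lines of the Hermitian unital with `q ^ 3 + 1` points form a Steiner system
`S(2, q + 1, q ^ 3 + 1)` without O'Nan configurations (four lines with six points of
intersection).  Filling the lines of the unital with `q = 4 ^ (3 ^ e)` with the system constructed
before gives, by induction, Steiner systems `S(2, 5, 4 ^ (3 ^ e) + 1)` without O'Nan
configurations.  The triples inside the blocks of such a system form a 3-uniform hypergraph with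
`n.choose 2` edges and no 2-regular subgraph on six vertices.
-/

namespace Pool.Agent.Results.MP_bc9e10_co.UnitalTriples

open Finset

/-- every vertex of `G` lies in exactly two edges of `G` -/
def IsTwoRegular {n : ℕ} (G : Finset (Finset (Fin n))) : Prop :=
  ∀ v ∈ G.biUnion id, (G.filter (fun e => v ∈ e)).card = 2

/-- `H` has no 2-regular subgraph on `2 * k` vertices -/
def NoTwoRegularOn (k : ℕ) {n : ℕ} (H : Finset (Finset (Fin n))) : Prop :=
  ∀ G : Finset (Finset (Fin n)), G ⊆ H → IsTwoRegular G → (G.biUnion id).card ≠ 2 * k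

/-- `H` is the full `k`-star with some center `v` together with a maximal matching `M` omitting
`v` -/
def IsStarPlusMatching (k : ℕ) {n : ℕ} (H : Finset (Finset (Fin n))) : Prop :=
  ∃ v : Fin n, ∃ M : Finset (Finset (Fin n)),
    (∀ e ∈ M, e.card = k ∧ v ∉ e) ∧
    (∀ e ∈ M, ∀ f ∈ M, e ≠ f → Disjoint e f) ∧
    (∀ e : Finset (Fin n), e.card = k → v ∉ e → ∃ f ∈ M, ¬ Disjoint e f) ∧
    H = (univ.powersetCard k).filter (fun e => v ∈ e) ∪ M

/-- the assertion of Q1 -/
def Assertion : Prop :=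
  ∀ k : ℕ, 3 ≤ k → ∃ N : ℕ, ∀ n : ℕ, N ≤ n → ∀ H : Finset (Finset (Fin n)),
    (∀ e ∈ H, e.card = k) → NoTwoRegularOn k H →
      H.card ≤ (n - 1).choose (k - 1) + (n - 1) / k ∧
      (H.card = (n - 1).choose (k - 1) + (n - 1) / k ↔ IsStarPlusMatching k H)

/-- For `k = 3` and all `n = 4 ^ (3 ^ e) + 1` there is an `n`-vertex 3-uniform hypergraph without
2-regular subgraph on 6 vertices and with `n.choose 2` edges; this is more than
`(n - 1).choose 2 + (n - 1) / 3`, so the assertion of Q1 is false. -/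
theorem result :
    (∀ e : ℕ, ∃ H : Finset (Finset (Fin (4 ^ (3 ^ e) + 1))),
      (∀ t ∈ H, t.card = 3) ∧ NoTwoRegularOn 3 H ∧ H.card = (4 ^ (3 ^ e) + 1).choose 2) ∧
    (∀ n : ℕ, 2 ≤ n → (n - 1).choose 2 + (n - 1) / 3 < n.choose 2) ∧
    ¬ Assertion := by
  have h1 : ∀ e : ℕ, ∃ H : Finset (Finset (Fin (4 ^ (3 ^ e) + 1))),
      (∀ t ∈ H, t.card = 3) ∧ NoTwoRegularOn 3 H ∧ H.card = (4 ^ (3 ^ e) + 1).choose 2 := by
    intro e
    obtain ⟨B, hB, hO⟩ := V1141.UN.exists_S25 e
    refine ⟨V1141.UN.triples B, fun t ht => (V1141.UN.mem_triples.1 ht).1, ?_, ?_⟩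
    · intro G hG h2 h6
      exact V1141.UN.no_two_regular B hB hO G hG h2 h6
    · rw [V1141.UN.card_triples B hB, Fintype.card_fin]
  have h2 : ∀ n : ℕ, 2 ≤ n → (n - 1).choose 2 + (n - 1) / 3 < n.choose 2 := by
    intro n hn
    obtain ⟨m, rfl⟩ : ∃ m, n = m + 1 := ⟨n - 1, by omega⟩
    have h3 : (m + 1).choose 2 = m.choose 1 + m.choose 2 := Nat.choose_succ_succ m 1
    rw [h3, Nat.choose_one_right]
    simp only [Nat.add_sub_cancel]
    omega
  refine ⟨h1, h2, ?_⟩
  intro hA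
  obtain ⟨N, hN⟩ := hA 3 le_rfl
  obtain ⟨H, hu, hno, hc⟩ := h1 N
  have hlt : N < 3 ^ N := Nat.lt_pow_self (by norm_num)
  have hlt' : 3 ^ N < 4 ^ (3 ^ N) := Nat.lt_pow_self (by norm_num)
  have h4 := (hN (4 ^ (3 ^ N) + 1) (by omega) H hu hno).1
  have h5 := h2 (4 ^ (3 ^ N) + 1) (by omega)
  rw [hc] at h4
  exact absurd h4 (not_le.2 h5)

end Pool.Agent.Results.MP_bc9e10_co.UnitalTriples
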